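import Pool.Agent.Q184.TwoNum.Final

namespace Pool.Agent.Results.MP_efd99a_gt.TwoNumberNotBetti

open Pool.Agent.Helper381 Bundle Manifold
open scoped ContDiff

/-- Euclidean space of dimension `d`. -/
abbrev Euc (d : ℕ) : Type := EuclideanSpace ℝ (Fin d)

/-- A smooth Riemannian metric on the smooth manifold `M` of dimension `d`: a smooth family of
inner products on the tangent spaces of `M`. -/
abbrev SmoothMetric (d : ℕ) (M : Type) [TopologicalSpace M] [ChartedSpace (Euc d) M]
    [IsManifold 𝓘(ℝ, Euc d) ∞ M] :=
  ContMDiffRiemannianMetric 𝓘(ℝ, Euc d) ∞ (Euc d) (fun x : M => TangentSpace 𝓘(ℝ, Euc d) x)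

/-- The distance of `M` is the Riemannian distance of the smooth Riemannian metric `g`, that is
the infimum of the `g`-lengths of the `C^1` paths between two points. -/
def DistIsRiemannian {d : ℕ} {M : Type} [MetricSpace M] [ChartedSpace (Euc d) M]
    [IsManifold 𝓘(ℝ, Euc d) ∞ M] (g : SmoothMetric d M) : Prop :=
  letI : RiemannianBundle (fun x : M => TangentSpace 𝓘(ℝ, Euc d) x) := ⟨g.toRiemannianMetric⟩
  IsRiemannianManifold 𝓘(ℝ, Euc d) M

/-- The map `s : M → M` is differentiable at `x` with differential `-id`. -/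
def HasDifferentialNegId {d : ℕ} {M : Type} [TopologicalSpace M] [ChartedSpace (Euc d) M]
    (s : M → M) (x : M) : Prop :=
  HasMFDerivAt 𝓘(ℝ, Euc d) 𝓘(ℝ, Euc d) s x (-(ContinuousLinearMap.id ℝ (Euc d)))

/-- `M` is a connected compact Riemannian symmetric space of dimension `d`: the distance of `M` is
the distance of a smooth Riemannian metric on a `d`-dimensional smooth manifold, and every point
of `M` has a symmetry (`IsSymmetric`, with `IsSymmetryAt x s` saying that `s` is an isometry with
`s ∘ s = id` which has `x` as an isolated fixed point). The last clause records that the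
differential at `x` of every symmetry at `x` is minus the identity. -/
structure IsCompactSymmetricSpace (d : ℕ) (M : Type) [MetricSpace M] : Prop where
  compact : CompactSpace M
  connected : ConnectedSpace M
  symmetric : IsSymmetric M
  riemannian : ∃ (_ : ChartedSpace (Euc d) M) (_ : IsManifold 𝓘(ℝ, Euc d) ∞ M)
    (g : SmoothMetric d M), DistIsRiemannian g ∧
      ∀ (x : M) (s : M ≃ᵢ M), IsSymmetryAt x s → HasDifferentialNegId (d := d) s x

/-- For every `m ≥ 2` there is a connected compact Riemannian symmetric space `M`, of dimension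
`3 (2 ^ m - 1)`, whose two-number is `2 ^ (m + 1)`, while its total mod 2 Betti number is finite
and at least `2 ^ (2 m + 1)`. In particular the two-number and the total mod 2 Betti number of a
connected compact symmetric space differ in general, even by arbitrarily large factors. -/
theorem result (m : ℕ) (hm : 2 ≤ m) :
    ∃ (M : Type) (_ : MetricSpace M), IsCompactSymmetricSpace (3 * (2 ^ m - 1)) M ∧
      twoNumber M = 2 ^ (m + 1) ∧
      2 ^ (2 * m + 1) ≤ totalBetti (ZMod 2) M ∧
      totalBetti (ZMod 2) M ≠ ⊤ ∧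
      twoNumber M ≠ totalBetti (ZMod 2) M := by
  obtain ⟨n, rfl⟩ : ∃ n, m = n + 1 := ⟨m - 1, by omega⟩
  have h2 := Q184.TwoNum.twoNumber_V n (by omega)
  have h3 := Q184.TwoNum.le_totalBetti (n := n)
  refine ⟨Q184.TwoNum.M (Q184.TwoNum.V n), Q184.TwoNum.mM _, ?_, ?_, ?_,
    Q184.TwoNum.totalBetti_ne_top n, ?_⟩
  · rw [← Q184.TwoNum.dm_V n]
    exact @IsCompactSymmetricSpace.mk _ _ (Q184.TwoNum.mM _) inferInstance inferInstance
      Q184.TwoNum.isSymmetric_M ⟨inferInstance, inferInstance,
      Q184.TwoNum.gM _, Q184.TwoNum.irm,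
      fun x s h => Q184.TwoNum.hasMFDerivAt_of_isSymmetryAt x s h⟩
  · rw [h2]; push_cast; rfl
  · have := h3
    push_cast at this
    exact this
  · intro h
    rw [← h, h2, Nat.cast_le] at h3
    have : 2 ^ (n + 2) < 2 ^ (2 * (n + 1) + 1) := Nat.pow_lt_pow_right (by norm_num) (by omega)
    omega

end Pool.Agent.Results.MP_efd99a_gt.TwoNumberNotBetti
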